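import Pool.Agent.Lib.MP_4fbe7c_an.FC.Iface
import Pool.Agent.Lib.MP_4fbe7c_an.SD.Main
import Pool.Agent.Lib.MP_4fbe7c_an.SD.SteadyB

/-!
Modules MAINA and MAINB (helper34): assembly of the two theorems on two arbitrary slow species and
any number of fast ones.
-/

set_option autoImplicit false

open Set

namespace Pool.Agent.Lib.MP_4fbe7c_an.FC.H34

open Pool.Agent.Lib.MP_4fbe7c_an.SD
open Pool.Agent.Lib.MP_4fbe7c_an.FC

theorem bound {L : ℝ} {m : ℝ → ℝ} (hm : ContinuousOn m (Icc 0 L)) :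
    ∃ M : ℝ, 0 < M ∧ ∀ x ∈ Icc 0 L, |m x| ≤ M := by
  obtain ⟨C, hC⟩ := isCompact_Icc.exists_bound_of_continuousOn hm
  refine ⟨max C 1, lt_of_lt_of_le one_pos (le_max_right _ _), fun x hx => ?_⟩
  have := hC x hx
  rw [Real.norm_eq_abs] at this
  exact this.trans (le_max_left _ _)

/-- The choice of the set of slow species. -/
theorem slow_set (hpa : PaStatement) {L M D : ℝ} {m : ℝ → ℝ} {N : ℕ} {d : Fin N → ℝ}
    {u v w : Fin N → ℝ → ℝ → ℝ} {i₀ i₁ : Fin N} (ctx : Ctx L M m d u v w) (hne : i₁ ≠ i₀)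
    (hlt : ∀ j, j ≠ i₀ → d i₀ < d j) (hfast : ∀ j, j ≠ i₀ → j ≠ i₁ → D ≤ d j)
    (hp : Pres L u i₀) :
    ∃ S : Finset (Fin N), i₀ ∈ S ∧ S.card ≤ 2 ∧ (∀ k ∈ S, Pres L u k ∧ d i₀ ≤ d k) ∧
      (∀ k, k ∉ S → D ≤ d k ∨ Absent L u k) := by
  classical
  rcases (hpa L M m N d u v w ctx i₁).1 with h1 | h1
  · refine ⟨{i₀, i₁}, by simp, Finset.card_le_two, ?_, ?_⟩
    · intro k hk
      rw [Finset.mem_insert, Finset.mem_singleton] at hk
      rcases hk with hk | hk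
      · rw [hk]; exact ⟨hp, le_rfl⟩
      · rw [hk]; exact ⟨h1, (hlt _ hne).le⟩
    · intro k hk
      rw [Finset.mem_insert, Finset.mem_singleton, not_or] at hk
      exact Or.inl (hfast k hk.1 hk.2)
  · refine ⟨{i₀}, by simp, by simp, ?_, ?_⟩
    · intro k hk
      rw [Finset.mem_singleton] at hk
      rw [hk]; exact ⟨hp, le_rfl⟩
    · intro k hk
      rw [Finset.mem_singleton] at hk
      by_cases hk1 : k = i₁
      · rw [hk1]; exact Or.inr h1
      · exact Or.inl (hfast k hk hk1)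

theorem maina (hpa : PaStatement) (hexa : ExAStatement) (hfin : FinStatement) :
    MainAStatement := by
  intro L a b m hL hm hnc ha hab
  obtain ⟨M, hM0, hM⟩ := bound hm
  obtain ⟨D, hD, hE⟩ := hexa L M a b m hL hm hnc hM hM0 ha hab
  refine ⟨D, hD, ?_⟩
  intro N d i₀ i₁ θ θ' θ'' hne hda hdb hlt hfast hθ
  have hd0 : 0 < d i₀ := lt_of_lt_of_le ha hda
  have hdp : ∀ j, 0 < d j := by
    intro j
    by_cases hj : j = i₀
    · rw [hj]; exact hd0
    · exact hd0.trans (hlt j hj)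
  refine hfin L M m θ θ' θ'' N d i₀ i₁ hL hm hnc hM0 hM hd0 hlt hne hθ ?_
  intro u v w hs hp j hj0 hj1 hpj
  have ctx : Ctx L M m d u v w := ⟨hL, hM0, hm, hM, hdp, hs⟩
  obtain ⟨S, h1, h2, h3, h4⟩ := slow_set hpa ctx hne hlt hfast hp
  exact hE N d u v w i₀ j S ctx hda hdb h1 h2 h3 h4 hpj (hfast j hj0 hj1)

theorem mainb (hpa : PaStatement) (hexb : ExBStatement) (hfin : FinStatement)
    (hma : MainAStatement) : MainBStatement := by
  intro L m m' hL hm hmc' hnc hpos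
  have hmc : ContinuousOn m (Icc 0 L) := fun x hx => (hm x hx).continuousWithinAt
  obtain ⟨M, hM0, hM⟩ := bound hmc
  obtain ⟨a, D₀, ha, hD₀, hE⟩ := hexb L M m m' hL hm hmc' hnc hM hM0 hpos
  obtain ⟨b, hb⟩ : ∃ b : ℝ, b = max a (25 * M * L ^ 2) := ⟨_, rfl⟩
  have hab : a ≤ b := by rw [hb]; exact le_max_left _ _
  have hbM : 25 * M * L ^ 2 ≤ b := by rw [hb]; exact le_max_right _ _
  obtain ⟨D₁, hD₁, hA⟩ := hma L a b m hL hmc hnc ha hab
  refine ⟨max D₀ D₁, lt_max_of_lt_left hD₀, ?_⟩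
  intro N d i₀ i₁ θ θ' θ'' hne hd0 hlt hfast hθ
  have hdp : ∀ j, 0 < d j := by
    intro j
    by_cases hj : j = i₀
    · rw [hj]; exact hd0
    · exact hd0.trans (hlt j hj)
  rcases le_total (d i₀) a with h | h
  · refine hfin L M m θ θ' θ'' N d i₀ i₁ hL hmc hnc hM0 hM hd0 hlt hne hθ ?_
    intro u v w hs hp j hj0 hj1 hpj
    have ctx : Ctx L M m d u v w := ⟨hL, hM0, hmc, hM, hdp, hs⟩
    have hfast' : ∀ j, j ≠ i₀ → j ≠ i₁ → D₀ ≤ d j := fun j h1 h2 =>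
      (le_max_left _ _).trans (hfast j h1 h2)
    obtain ⟨S, h1, h2, h3, h4⟩ := slow_set hpa ctx hne hlt hfast' hp
    exact hE N d u v w i₀ j S θ θ' θ'' ctx hθ h h1 h2 h3 h4 hpj (hfast' j hj0 hj1)
  · rcases le_total (d i₀) b with h' | h'
    · exact hA N d i₀ i₁ θ θ' θ'' hne h h' hlt
        (fun j h1 h2 => (le_max_right _ _).trans (hfast j h1 h2)) hθ
    · have hmM : ∀ x ∈ Icc 0 L, m x ≤ M := fun x hx => (le_abs_self _).trans (hM x hx)
      have hm0 : ∀ x ∈ Icc 0 L, 0 ≤ m x := fun x hx => (hpos x hx).le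
      have h1 : 25 * M * L ^ 2 ≤ d i₀ := hbM.trans h'
      have hML : 0 ≤ M * L ^ 2 := by positivity
      have h2 : 16 * (M - 0) * L ^ 2 ≤ d i₀ := by nlinarith
      have hW := weight_explicit hL hmc hnc hmM hm0 hd0 h1 h2 hθ
      have hw : ∀ j, ∃ φ φ' φ'' : ℝ → ℝ, j ≠ i₀ → Weight L m θ (d j) φ φ' φ'' := by
        intro j
        by_cases hj : j = i₀
        · exact ⟨fun _ => 0, fun _ => 0, fun _ => 0, fun h => absurd hj h⟩
        · obtain ⟨φ, φ', φ'', h⟩ := hW (d j) (hlt j hj)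
          exact ⟨φ, φ', φ'', fun _ => h⟩
      choose φ φ' φ'' hφ using hw
      exact gas_of_weights hL hmc hdp i₀ hθ (fun j hj => hφ j hj)

end Pool.Agent.Lib.MP_4fbe7c_an.FC.H34
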